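import Mathlib
import Pool.Agent.LeoC.CorStmts
import Pool.Agent.Helper2_LeoK.Inh

/-!
# LEOC: the infinite places of a quadratic extension
-/

set_option autoImplicit false

open NumberField NumberField.InfinitePlace NumberField.mixedEmbedding Module

open scoped Classical

namespace Pool.Agent.LeoC.H59

variable {k K : Type} [Field k] [NumberField k] [Field K] [NumberField K] [Algebra k K]

lemma not_mem_of_real {m : k} {r : K} (hr : r ^ 2 = algebraMap k K (3 * m))
    {N : Set {w : InfinitePlace k // IsReal w}} (hN : Sgn N (mixedEmbedding k m))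
    (w : {w : InfinitePlace k // IsReal w}) (W : InfinitePlace K)
    (hW : W.comap (algebraMap k K) = w.1) (hreal : IsReal W) : w ∉ N := by
  intro hw
  have h1 : (mixedEmbedding k m).1 w < 0 := (hN.1 w).1 hw
  rw [mixedEmbedding_apply_isReal] at h1
  have h2 : (embedding_of_isReal w.2 m : ℂ) = W.embedding (algebraMap k K m) := by
    rw [embedding_of_isReal_apply]
    have h3 : (W.comap (algebraMap k K)).embedding = W.embedding.comp (algebraMap k K) :=
      comap_embedding_of_isReal _ (hW ▸ w.2)
    rw [hW] at h3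
    rw [h3]
    rfl
  have h4 : (embedding_of_isReal hreal r : ℂ) = W.embedding r := embedding_of_isReal_apply _ _
  have h5 : (embedding_of_isReal hreal r : ℂ) ^ 2 = 3 * (embedding_of_isReal w.2 m : ℂ) := by
    rw [h4, h2, ← map_pow, hr, map_mul, map_mul]
    congr 1
    rw [show (3 : k) = ((3 : ℕ) : k) by norm_num, map_natCast, map_natCast]
    norm_num
  have h6 : (embedding_of_isReal hreal r) ^ 2 = 3 * (embedding_of_isReal w.2 m) := by
    exact_mod_cast h5
  nlinarith [sq_nonneg (embedding_of_isReal hreal r)]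

lemma mem_of_not_real {m : k} {r : K} (h2 : finrank k K = 2)
    (hr : r ^ 2 = algebraMap k K (3 * m)) (hsq : ∀ x : k, x ^ 2 ≠ 3 * m)
    {N : Set {w : InfinitePlace k // IsReal w}} (hN : Sgn N (mixedEmbedding k m))
    (w : {w : InfinitePlace k // IsReal w}) (W : InfinitePlace K)
    (hW : W.comap (algebraMap k K) = w.1) (hreal : ¬ IsReal W) : w ∈ N := by
  by_contra hw
  apply hreal
  have h1 : 0 < (mixedEmbedding k m).1 w := (hN.1 w).2 hw
  rw [mixedEmbedding_apply_isReal] at h1
  have h3 : (W.comap (algebraMap k K)).embedding = W.embedding.comp (algebraMap k K) :=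
    comap_embedding_of_isReal _ (hW ▸ w.2)
  rw [hW] at h3
  have h0 : ∀ x : k, W.embedding (algebraMap k K x) = ((embedding_of_isReal w.2 x : ℝ) : ℂ) := by
    intro x
    rw [embedding_of_isReal_apply, h3]
    rfl
  have hr' : ∀ x : k, algebraMap k K x ≠ r := by
    intro x hx
    apply hsq x
    apply (algebraMap k K).injective
    rw [map_pow, hx, hr]
  have hψr : ∃ y : ℝ, W.embedding r = (y : ℂ) := by
    have hsq : W.embedding r ^ 2 =
        ((Real.sqrt (3 * embedding_of_isReal w.2 m) : ℝ) : ℂ) ^ 2 := by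
      rw [← map_pow, hr, h0, ← Complex.ofReal_pow, Real.sq_sqrt (by positivity), map_mul]
      congr 2
      rw [show (3 : k) = ((3 : ℕ) : k) by norm_num, map_natCast]
      norm_num
    rcases sq_eq_sq_iff_eq_or_eq_neg.1 hsq with h | h
    · exact ⟨_, h⟩
    · exact ⟨-Real.sqrt (3 * embedding_of_isReal w.2 m), by rw [h, Complex.ofReal_neg]⟩
  obtain ⟨y, hy⟩ := hψr
  rw [InfinitePlace.isReal_iff, ComplexEmbedding.isReal_iff]
  ext z
  obtain ⟨a, b, rfl⟩ := Pool.Agent.LeoK.H2.quad_span' h2 hr' z
  obtain ⟨A, hA⟩ : ∃ A : ℝ, W.embedding (algebraMap k K a) = A := ⟨_, h0 a⟩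
  obtain ⟨B, hB⟩ : ∃ B : ℝ, W.embedding (algebraMap k K b) = B := ⟨_, h0 b⟩
  rw [ComplexEmbedding.conjugate_coe_eq, map_add, map_mul, hA, hB, hy, map_add, map_mul,
    Complex.conj_ofReal, Complex.conj_ofReal, Complex.conj_ofReal]

/-- **SIG**: the signature of `K`. -/
theorem quadN {m : k} {r : K} (h2 : finrank k K = 2)
    (hr : r ^ 2 = algebraMap k K (3 * m)) (hsq : ∀ x : k, x ^ 2 ≠ 3 * m)
    {N : Set {w : InfinitePlace k // IsReal w}} (hN : Sgn N (mixedEmbedding k m)) :
    QuadN N K := by
  have hfd : FiniteDimensional k K := FiniteDimensional.of_finrank_pos (by omega)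
  have hram : ∀ w : {w : InfinitePlace k // IsReal w}, w.1.IsUnramifiedIn K ↔ w ∉ N := by
    intro w
    obtain ⟨W, hW⟩ := comap_surjective (k := k) (K := K) w.1
    have hW' : W.comap (algebraMap k K) = w.1 := hW
    constructor
    · intro h
      have h3 := h W hW'
      rw [isUnramified_iff, hW'] at h3
      rcases h3 with h3 | h3
      · exact not_mem_of_real hr hN w W hW' h3
      · exact absurd w.2 (not_isReal_iff_isComplex.2 h3)
    · intro h W' hW''
      rw [isUnramified_iff]
      left
      by_contra h4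
      exact h (mem_of_not_real h2 hr hsq hN w W' hW'' h4)
  haveI : Algebra.IsQuadraticExtension k K := ⟨h2⟩
  haveI : IsGalois k K := inferInstance
  have hcard := card_eq_card_isUnramifiedIn k K
  have h3 : (Finset.univ.filter fun w : InfinitePlace k => w.IsUnramifiedIn K)ᶜ.card = N.ncard := by
    rw [Set.ncard_eq_toFinset_card']
    symm
    apply Finset.card_bij (fun (w : {w : InfinitePlace k // IsReal w}) _ => w.1)
    · intro w hw
      rw [Set.mem_toFinset] at hw
      rw [Finset.mem_compl, Finset.mem_filter]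
      rintro ⟨-, h⟩
      exact (hram w).1 h hw
    · intro w _ w' _ h
      exact Subtype.ext h
    · intro w hw
      rw [Finset.mem_compl, Finset.mem_filter] at hw
      have hw' : ¬ w.IsUnramifiedIn K := fun h => hw ⟨Finset.mem_univ _, h⟩
      have hreal : IsReal w := by
        by_contra hc
        apply hw'
        intro W hW
        rw [isUnramified_iff, hW]
        exact Or.inr (not_isReal_iff_isComplex.1 hc)
      refine ⟨⟨w, hreal⟩, ?_, rfl⟩
      rw [Set.mem_toFinset]
      by_contra hc
      exact hw' ((hram ⟨w, hreal⟩).2 hc)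
  have h4 : (Finset.univ.filter fun w : InfinitePlace k => w.IsUnramifiedIn K).card + N.ncard =
      Fintype.card (InfinitePlace k) := by
    rw [← h3, Finset.card_add_card_compl]
  rw [h3, h2] at hcard
  have h5 : Fintype.card (InfinitePlace k) = nrRealPlaces k + nrComplexPlaces k :=
    card_eq_nrRealPlaces_add_nrComplexPlaces k
  have h6 : Fintype.card (InfinitePlace K) = nrRealPlaces K + nrComplexPlaces K :=
    card_eq_nrRealPlaces_add_nrComplexPlaces K
  have h7 := card_add_two_mul_card_eq_rank k
  have h8 := card_add_two_mul_card_eq_rank K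
  have h9 : finrank ℚ K = finrank ℚ k * 2 := by rw [← finrank_mul_finrank ℚ k K, h2]
  refine ⟨h2, hram, ?_, ?_⟩ <;> omega

end Pool.Agent.LeoC.H59
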