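import Mathlib
import Pool.Agent.Helper59_LEO4.Small
import Pool.Agent.Helper59_LEO4.Iso

/-!
# LEOC: from parameters to fields, arbitrary base field
-/

set_option autoImplicit false

open NumberField Module IsDedekindDomain WithZero Polynomial Filter
open Pool.Agent.LEO4.H59

namespace Pool.Agent.LeoC.H59

/-- balanced elements have small house. -/
theorem house_pow_le {k : Type} [Field k] [NumberField k] (m : 𝓞 k)
    (B : ℝ) (hB : ∀ φ ψ : k →+* ℂ, ‖φ m‖ ≤ B * ‖ψ m‖) :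
    house (m : k) ^ finrank ℚ k ≤ |B| ^ finrank ℚ k * ((Algebra.norm ℤ m).natAbs : ℝ) := by
  classical
  have hnorm : ((Algebra.norm ℤ m).natAbs : ℝ) = ∏ φ : k →+* ℂ, ‖φ (m : k)‖ := by
    have h2 : (((Algebra.norm ℤ m : ℤ) : ℚ) : ℂ) = ∏ φ : k →+* ℂ, φ (m : k) := by
      rw [Algebra.coe_norm_int]
      have h3 := Algebra.norm_eq_prod_embeddings ℚ ℂ (m : k)
      rw [show (((Algebra.norm ℚ (m : k)) : ℚ) : ℂ) = algebraMap ℚ ℂ (Algebra.norm ℚ (m : k)) from rfl,
        h3]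
      exact (Fintype.prod_equiv (RingHom.equivRatAlgHom k ℂ) _ _ (fun f => rfl)).symm
    have h4 := congrArg norm h2
    rw [norm_prod] at h4
    rw [← h4]
    have h5 : (((Algebra.norm ℤ m).natAbs : ℕ) : ℝ) = |((Algebra.norm ℤ m : ℤ) : ℝ)| := by
      rw [Nat.cast_natAbs, Int.cast_abs]
    rw [h5]
    rw [show (((Algebra.norm ℤ m : ℤ) : ℚ) : ℂ) = (((Algebra.norm ℤ m : ℤ) : ℝ) : ℂ) by push_cast; rfl,
      Complex.norm_real, Real.norm_eq_abs]
  rw [hnorm]
  obtain ⟨φ₀, hφ₀⟩ : ∃ φ₀ : k →+* ℂ, house (m : k) = ‖φ₀ (m : k)‖ := by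
    have h := Finset.exists_mem_eq_sup' (Finset.univ_nonempty (α := k →+* ℂ))
      (fun φ : k →+* ℂ => ‖φ (m : k)‖₊)
    obtain ⟨φ₀, -, h⟩ := h
    refine ⟨φ₀, ?_⟩
    rw [house_eq_sup', h]
    rfl
  have hle : ∀ φ : k →+* ℂ, house (m : k) ≤ |B| * ‖φ (m : k)‖ := by
    intro φ
    rw [hφ₀]
    refine (hB φ₀ φ).trans ?_
    exact mul_le_mul_of_nonneg_right (le_abs_self B) (norm_nonneg _)
  calc house (m : k) ^ finrank ℚ k = ∏ _φ : k →+* ℂ, house (m : k) := by
        rw [Finset.prod_const, Finset.card_univ, Embeddings.card]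
    _ ≤ ∏ φ : k →+* ℂ, |B| * ‖φ (m : k)‖ :=
        Finset.prod_le_prod (fun _ _ => house_nonneg _) fun φ _ => hle φ
    _ = |B| ^ finrank ℚ k * ∏ φ : k →+* ℂ, ‖φ (m : k)‖ := by
        rw [Finset.prod_mul_distrib, Finset.prod_const, Finset.card_univ, Embeddings.card]

/-- the abelian fields are negligible. -/
theorem nab_small (k : Type) [Field k] [NumberField k]
    (hn : 2 ≤ finrank ℚ k) (B : ℝ) (ε : ℝ) (hε : 0 < ε) :
    ∀ᶠ Z : ℝ in atTop, ∀ S : Finset (𝓞 k),
      (∀ m ∈ S, Squarefree (Ideal.span {m}) ∧ ¬ IsSquare (3 * (m : k)) ∧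
        ((Algebra.norm ℤ m).natAbs : ℝ) ≤ Z ∧
        (∀ φ ψ : k →+* ℂ, ‖φ m‖ ≤ B * ‖ψ m‖) ∧
        ∃ (K : Type) (_ : Field K) (_ : NumberField K) (_ : Algebra k K) (r : K),
          finrank k K = 2 ∧ r ^ 2 = algebraMap k K (3 * (m : k)) ∧ IsAbelianGalois ℚ K) →
      (S.card : ℝ) ≤ ε * Z := by
  obtain ⟨C, hC, hnab⟩ := nab k hn |B|
  set n := finrank ℚ k with hndef
  -- a threshold for `R`
  set D : ℝ := |B| ^ n + 1 with hD
  have hD1 : 1 ≤ D := by have : 0 ≤ |B| ^ n := by positivity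
                         linarith
  filter_upwards [eventually_ge_atTop (1 : ℝ), eventually_ge_atTop ((C * D / ε) ^ n)] with Z hZ1 hZ2 S hS
  have hn0 : (n : ℝ) ≠ 0 := by
    have : n ≠ 0 := by omega
    exact_mod_cast this
  have hn0' : n ≠ 0 := by omega
  set R : ℝ := (D * Z) ^ ((1 : ℝ) / n) with hR
  have hDZ : 1 ≤ D * Z := by nlinarith
  have hRn : R ^ n = D * Z := by
    rw [hR, ← Real.rpow_natCast, ← Real.rpow_mul (by linarith), one_div, inv_mul_cancel₀ hn0,
      Real.rpow_one]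
  have hR1 : 1 ≤ R := Real.one_le_rpow hDZ (by positivity)
  have hRbig : C * D / ε ≤ R := by
    have h0 : 0 ≤ C * D / ε := by positivity
    have h1 : (C * D / ε) ^ n ≤ R ^ n := by
      rw [hRn]; nlinarith
    exact le_of_pow_le_pow_left₀ hn0' (by linarith) h1
  have hcount := hnab R hR1 S (fun m hm => by
    obtain ⟨h1, h2, h3, h5, h6⟩ := hS m hm
    refine ⟨h1, h2, ?_, ?_, h6⟩
    · have h7 := house_pow_le m B h5
      have h8 : house (m : k) ^ n ≤ R ^ n := by
        rw [hRn]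
        refine h7.trans ?_
        have : 0 ≤ |B| ^ n := by positivity
        rw [hD]
        have hZ0 : 0 ≤ Z := by linarith
        nlinarith
      exact le_of_pow_le_pow_left₀ hn0' (by linarith) h8
    · intro φ ψ
      exact (h5 φ ψ).trans (mul_le_mul_of_nonneg_right (le_abs_self B) (norm_nonneg _)))
  refine hcount.trans ?_
  have hpow : R ^ (n - 1) * R = D * Z := by
    rw [← pow_succ, ← hRn]; congr 1; omega
  have hRpos : 0 < R := by linarith
  have h9 : R ^ (n - 1) = D * Z / R := by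
    rw [eq_div_iff hRpos.ne', hpow]
  rw [h9]
  rw [mul_div_assoc', div_le_iff₀ hRpos]
  have h10 : C * D ≤ ε * R := by
    rw [div_le_iff₀ hε] at hRbig; linarith
  have hZ0 : 0 ≤ Z := by linarith
  nlinarith

/-- The counting argument for any property `Pr` of the fields which follows from a property `P` of
the parameters. -/
theorem core (k : Type) [Field k] [NumberField k] (c B : ℝ) (hc : 0 < c) (P : 𝓞 k → Prop)
    (hk : ∀ᶠ Z : ℝ in atTop, ∃ S : Finset (𝓞 k), c * Z ≤ S.card ∧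
      (∀ m ∈ S, Squarefree (Ideal.span {m}) ∧ ¬ IsSquare (3 * (m : k)) ∧
        ((Algebra.norm ℤ m).natAbs : ℝ) ≤ Z ∧ (∀ φ ψ : k →+* ℂ, ‖φ m‖ ≤ B * ‖ψ m‖) ∧ P m) ∧
      (∀ m ∈ S, ∀ m' ∈ S, IsSquare ((m : k) * m') → m = m'))
    (Pr : ∀ (K : Type) [Field K] [NumberField K] [Algebra k K], Prop)
    (hPr : ∀ (K : Type) [Field K] [NumberField K] [Algebra k K] (m : 𝓞 k) (r : K),
      finrank k K = 2 → r ^ 2 = algebraMap k K (3 * (m : k)) → P m → Pr K) :
    ∃ c : ℝ, 0 < c ∧ ∀ᶠ X : ℝ in atTop,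
      ∃ (I : Type) (_ : Fintype I) (K : I → Type) (_ : ∀ i, Field (K i))
        (_ : ∀ i, NumberField (K i)) (_ : ∀ i, Algebra k (K i)),
        c * X ≤ Fintype.card I ∧ (∀ i i', Nonempty (K i ≃+* K i') → i = i') ∧
        ∀ i, finrank k (K i) = 2 ∧ ((discr (K i)).natAbs : ℝ) ≤ X ∧ Pr (K i) ∧
          (2 ≤ finrank ℚ k → ¬ IsAbelianGalois ℚ (K i)) := by
  classical
  set n := finrank ℚ k with hn
  have hn0 : 0 < n := finrank_pos
  set D : ℝ := 12 ^ n * ((discr k).natAbs : ℝ) ^ 2 with hD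
  have hD0 : 0 < D := by
    have : (discr k).natAbs ≠ 0 := Int.natAbs_ne_zero.mpr (discr_ne_zero k)
    have : (0 : ℝ) < ((discr k).natAbs : ℝ) := by positivity
    positivity
  -- negligible abelian ones
  have hsmall : ∀ᶠ Z : ℝ in atTop, ∀ S : Finset (𝓞 k), 2 ≤ n →
      (∀ m ∈ S, Squarefree (Ideal.span {m}) ∧ ¬ IsSquare (3 * (m : k)) ∧
        ((Algebra.norm ℤ m).natAbs : ℝ) ≤ Z ∧
        (∀ φ ψ : k →+* ℂ, ‖φ m‖ ≤ B * ‖ψ m‖) ∧
        ∃ (K : Type) (_ : Field K) (_ : NumberField K) (_ : Algebra k K) (r : K),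
          finrank k K = 2 ∧ r ^ 2 = algebraMap k K (3 * (m : k)) ∧ IsAbelianGalois ℚ K) →
      (S.card : ℝ) ≤ (c / 2) * Z := by
    by_cases h2 : 2 ≤ n
    · filter_upwards [nab_small k h2 B (c / 2) (by positivity)] with Z hZ S _ hS
      exact hZ S hS
    · exact Eventually.of_forall fun Z S h => absurd h h2
  have hev' := (tendsto_id.atTop_div_const hD0).eventually (hk.and hsmall)
  refine ⟨c / (2 * n * D), by positivity, ?_⟩
  filter_upwards [hev', eventually_ge_atTop (0 : ℝ)] with X hX hX0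
  obtain ⟨⟨S, hScard, hS, hSinj⟩, hab⟩ := hX
  simp only [id] at hScard hS hab
  -- the fields
  have hfield : ∀ m : {m // m ∈ S}, ∃ (K : Type) (_ : Field K) (_ : NumberField K)
      (_ : Algebra k K) (r : K), finrank k K = 2 ∧
        r ^ 2 = algebraMap k K (3 * ((m : 𝓞 k) : k)) := fun m =>
    exists_quad k _ (hS m m.2).2.1
  choose K hF hNF hA r h2 hr2 using hfield
  -- the subset of non abelian ones
  set S₁ : Finset {m // m ∈ S} := Finset.univ.filter fun m =>
    ¬ (2 ≤ n ∧ IsAbelianGalois ℚ (K m)) with hS₁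
  have hS₁card : c / 2 * (X / D) ≤ S₁.card := by
    set S₂ : Finset {m // m ∈ S} := Finset.univ.filter fun m =>
      (2 ≤ n ∧ IsAbelianGalois ℚ (K m)) with hS₂
    have hsum : S₂.card + S₁.card = S.card := by
      rw [hS₁, hS₂, Finset.card_filter_add_card_filter_not]
      simp
    have hS₂card : (S₂.card : ℝ) ≤ c / 2 * (X / D) := by
      by_cases h2n : 2 ≤ n
      · have := hab (S₂.map ⟨Subtype.val, Subtype.val_injective⟩) h2n (by
          intro m hm
          rw [Finset.mem_map] at hm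
          obtain ⟨⟨m', hm'⟩, hmem, rfl⟩ := hm
          simp only [hS₂, Finset.mem_filter, Finset.mem_univ, true_and] at hmem
          obtain ⟨hsqf, hnsq, hnm, hbal, -⟩ := hS m' hm'
          exact ⟨hsqf, hnsq, hnm, hbal, K ⟨m', hm'⟩, hF _, hNF _, hA _,
            r _, h2 _, hr2 _, hmem.2⟩)
        rwa [Finset.card_map] at this
      · have : S₂ = ∅ := by
          rw [hS₂, Finset.filter_eq_empty_iff]
          intro m _ h
          exact h2n h.1
        rw [this]
        simp only [Finset.card_empty, Nat.cast_zero]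
        positivity
    have hsum' : (S₂.card : ℝ) + S₁.card = S.card := by exact_mod_cast hsum
    linarith
  -- representatives
  obtain ⟨T, hTS, hTinj, hTcard⟩ := select S₁ (fun m m' => Nonempty (K m ≃+* K m'))
    (fun m => ⟨RingEquiv.refl _⟩) (fun m m' ⟨e⟩ => ⟨e.symm⟩) n (by
      intro a ha
      have h := iso_fiber k ((S₁.filter fun m' => Nonempty (K a ≃+* K m')).map
        ⟨Subtype.val, Subtype.val_injective⟩) (by
          intro m hm m' hm' hsq
          rw [Finset.mem_map] at hm hm'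
          obtain ⟨m₀, -, rfl⟩ := hm
          obtain ⟨m₁, -, rfl⟩ := hm'
          exact hSinj _ m₀.2 _ m₁.2 hsq) (by
          intro m hm
          rw [Finset.mem_map] at hm
          obtain ⟨m₀, -, rfl⟩ := hm
          exact (hS _ m₀.2).2.1) (K a) (by
          intro m hm
          rw [Finset.mem_map] at hm
          obtain ⟨m₀, hm₀, rfl⟩ := hm
          rw [Finset.mem_filter] at hm₀
          obtain ⟨-, ⟨e⟩⟩ := hm₀
          exact ⟨K m₀, hF _, hA _, r _, h2 _, hr2 _, ⟨e.symm⟩⟩)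
      rwa [Finset.card_map] at h)
  refine ⟨{m // m ∈ T}, inferInstance, fun m => K m.1, fun m => hF m.1, fun m => hNF m.1,
    fun m => hA m.1, ?_, ?_, ?_⟩
  · rw [Fintype.card_coe]
    have h4 : (S₁.card : ℝ) ≤ n * T.card := by exact_mod_cast hTcard
    have hnpos : (0 : ℝ) < n := by exact_mod_cast hn0
    have h5 : c / (2 * n * D) * X = (c / 2 * (X / D)) / n := by
      field_simp
    rw [h5, div_le_iff₀ hnpos]
    linarith
  · rintro ⟨m, hm⟩ ⟨m', hm'⟩ he
    exact Subtype.ext (hTinj m hm m' hm' he)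
  · rintro ⟨m, hm⟩
    obtain ⟨hsqf, hnsq, hnm, hbal, hP⟩ := hS m.1 m.2
    refine ⟨h2 m, ?_, hPr (K m) m.1 (r m) (h2 m) (hr2 m) hP, ?_⟩
    · have hd := discr_le k (K m) (h2 m) m.1 (r m) (hr2 m) hnsq
      have hd' : ((discr (K m)).natAbs : ℝ) ≤
          12 ^ n * ((Algebra.norm ℤ m.1).natAbs : ℝ) * ((discr k).natAbs : ℝ) ^ 2 := by
        exact_mod_cast hd
      calc ((discr (K m)).natAbs : ℝ)
          ≤ 12 ^ n * ((Algebra.norm ℤ m.1).natAbs : ℝ) * ((discr k).natAbs : ℝ) ^ 2 := hd'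
        _ = D * ((Algebra.norm ℤ m.1).natAbs : ℝ) := by rw [hD]; ring
        _ ≤ D * (X / D) := by gcongr
        _ = X := by field_simp
    · intro h2n hab'
      have hmem := hTS hm
      simp only [hS₁, Finset.mem_filter, Finset.mem_univ, true_and] at hmem
      exact hmem ⟨h2n, hab'⟩

end Pool.Agent.LeoC.H59

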