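import Mathlib
import Pool.Agent.LeoK.StrStmts

/-!
# The layers of the cyclotomic tower: totally real cyclic fields of degree `3 ^ a` unramified
outside 3
-/

set_option autoImplicit false

open NumberField Module IsDedekindDomain
open Pool.Agent.LeoK

namespace Pool.Agent.LeoC.H59

/-- Subfields of the cyclotomic field of conductor a power of 3 are unramified outside 3. -/
theorem unr_of_cyc (a : ℕ) (C F : Type) [Field C] [NumberField C] [Field F] [NumberField F]
    [Algebra F C] [IsCyclotomicExtension {3 ^ (a + 1)} ℚ C] : UnrOut3 ℚ F := by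
  intro P hP hP0 h3
  have hPm : P.IsMaximal := hP.isMaximal hP0
  obtain ⟨Q, hQm, hQl⟩ := Ideal.exists_maximal_ideal_liesOver_of_isIntegral (S := 𝓞 C) P
  have hQ0 : Q ≠ ⊥ := Ideal.ne_bot_of_liesOver_of_ne_bot hP0 Q
  have hQp : Q.IsPrime := hQm.isPrime
  have hm3 : (3 : 𝓞 C) ∉ Q := by
    intro h7
    apply h3
    have h8 : algebraMap (𝓞 F) (𝓞 C) 3 ∈ Q := by
      rwa [map_ofNat]
    rw [hQl.over]
    exact h8
  -- the prime number below
  have hZ0 : Q.under ℤ ≠ ⊥ := by
    intro h
    exact hQ0 (Ideal.eq_bot_of_comap_eq_bot (I := Q) (R := ℤ) h)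
  have hZp : (Q.under ℤ).IsPrime := inferInstance
  obtain ⟨p, hp⟩ : ∃ p : ℕ, Q.under ℤ = Ideal.span {(p : ℤ)} := by
    obtain ⟨n, hn⟩ := IsPrincipalIdealRing.principal (Q.under ℤ)
    refine ⟨n.natAbs, ?_⟩
    rw [Int.span_natAbs]
    exact hn
  have hpp : p.Prime := by
    rw [hp] at hZp hZ0
    have hne : (p : ℤ) ≠ 0 := by
      intro h
      exact hZ0 (by rw [h]; simp)
    have := (Ideal.span_singleton_prime hne).1 hZp
    exact Nat.prime_iff_prime_int.2 this
  haveI : Fact p.Prime := ⟨hpp⟩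
  have hlies : Q.LiesOver (Ideal.span {(p : ℤ)}) := ⟨hp.symm⟩
  have hp3 : p ≠ 3 := by
    rintro rfl
    apply hm3
    have h4 : (3 : ℤ) ∈ Q.under ℤ := by
      rw [hp]
      exact Ideal.mem_span_singleton_self _
    have h5 : algebraMap ℤ (𝓞 C) 3 ∈ Q := h4
    simpa using h5
  have hnd : ¬ p ∣ 3 ^ (a + 1) := by
    intro h
    exact hp3 ((Nat.prime_dvd_prime_iff_eq hpp Nat.prime_three).1 (hpp.dvd_of_dvd_pow h))
  have he : Ideal.ramificationIdx Q ℤ = 1 :=
    IsCyclotomicExtension.Rat.ramificationIdx_eq_of_not_dvd p C Q hnd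
  have hun : Algebra.IsUnramifiedAt ℤ Q := Ideal.ramificationIdx_eq_one_iff.1 he
  have h9 : Algebra.IsUnramifiedAt ℤ P := Algebra.IsUnramifiedAt.of_liesOver (R := ℤ) P Q
  exact Algebra.IsUnramifiedAt.of_restrictScalars (R := ℤ) P

theorem exists_cycfield (n : ℕ) [NeZero n] :
    ∃ (C : Type) (_ : Field C) (_ : NumberField C), IsCyclotomicExtension {n} ℚ C := by
  refine ⟨CyclotomicField n ℚ, inferInstance, inferInstance, ?_⟩
  have h := CyclotomicField.isCyclotomicExtension n ℚ
  have e : (DivisionRing.toRatAlgebra : Algebra ℚ (CyclotomicField n ℚ)) =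
    CyclotomicField.algebra n ℚ := Subsingleton.elim _ _
  rw [e]
  exact h

/-- For every `a` there is a totally real Galois extension of `ℚ` of degree `3 ^ a` unramified
outside 3. -/
theorem exists_cyc (a : ℕ) : ∃ (F : Type) (_ : Field F) (_ : NumberField F),
    IsGalois ℚ F ∧ finrank ℚ F = 3 ^ a ∧ IsTotallyReal F ∧ UnrOut3 ℚ F := by
  haveI : NeZero (3 ^ (a + 1)) := ⟨by positivity⟩
  obtain ⟨C, _, _, hC⟩ := exists_cycfield (3 ^ (a + 1))
  haveI : IsAbelianGalois ℚ C := IsCyclotomicExtension.isAbelianGalois {3 ^ (a + 1)} ℚ C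
  have hfin : finrank ℚ C = 2 * 3 ^ a := by
    rw [IsCyclotomicExtension.finrank C
      (Polynomial.cyclotomic.irreducible_rat (by positivity : 0 < 3 ^ (a + 1))),
      Nat.totient_prime_pow Nat.prime_three (by omega)]
    simp [mul_comm]
  have hcard : Nat.card Gal(C/ℚ) = 2 * 3 ^ a := by
    rw [IsGalois.card_aut_eq_finrank, hfin]
  obtain ⟨σ, hσ⟩ := exists_prime_orderOf_dvd_card' 2 (G := Gal(C/ℚ)) (by rw [hcard]; simp)
  let F := IntermediateField.fixedField (Subgroup.zpowers σ)
  have h2 : finrank F C = 2 := by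
    rw [IntermediateField.finrank_fixedField_eq_card, Nat.card_zpowers, hσ]
  have h3 : finrank ℚ F = 3 ^ a := by
    have := finrank_mul_finrank ℚ F C
    rw [h2, hfin] at this
    omega
  haveI : NumberField F := NumberField.of_intermediateField F
  haveI : IsAbelianGalois ℚ F := IsAbelianGalois.tower_bot ℚ F C
  haveI : IsGalois ℚ F := inferInstance
  refine ⟨F, inferInstance, inferInstance, inferInstance, h3, ?_, ?_⟩
  · refine ⟨fun v => ?_⟩
    have hodd : Odd (finrank ℚ F) := by
      rw [h3]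
      exact Odd.pow (by decide)
    haveI := IsUnramifiedAtInfinitePlaces_of_odd_finrank (k := ℚ) (K := F) hodd
    have h4 := IsUnramifiedAtInfinitePlaces.isUnramified (k := ℚ) v
    rw [InfinitePlace.isUnramified_iff] at h4
    rcases h4 with h4 | h4
    · exact h4
    · exact absurd h4 (by
        rw [InfinitePlace.not_isComplex_iff_isReal]
        exact IsTotallyReal.isReal _)
  · exact unr_of_cyc a C F

end Pool.Agent.LeoC.H59
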