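import Mathlib
import Pool.Agent.Helper59_LeoC.Core
import Pool.Agent.Helper59_LeoC.Sig
import Pool.Agent.Helper59_LeoC.Cyc
import Pool.Agent.Helper19_LeoK.Gup3
import Pool.Agent.Helper59_LeoG.Base
import Pool.Agent.Helper59_LeoK.Quo

/-!
# LEOC: the final statements from the modules
-/

set_option autoImplicit false

open NumberField NumberField.InfinitePlace NumberField.mixedEmbedding IsDedekindDomain WithZero
  Module Filter
open Pool.Agent.Helper85_Leo Pool.Agent.Leo3 Pool.Agent.LeoK Pool.Agent.LeoG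

open scoped Classical

namespace Pool.Agent.LeoC.H59

/-- The properties of the fields. -/
theorem good_of (hs : StgStmt) (hi : IngStmt) (k : Type) [Field k] [NumberField k]
    (N : Set {w : InfinitePlace k // IsReal w}) (K : Type) [Field K] [NumberField K] [Algebra k K]
    (m : 𝓞 k) (r : K) (h2 : finrank k K = 2) (hr : r ^ 2 = algebraMap k K (3 * (m : k)))
    (hadm : AdmG k m) (hsgn : Sgn N (mixedEmbedding k (m : k)))
    (hform : ¬ ∃ g : Q4 (𝓞 k), GIrr g ∧ mm g = m) : QuadN N K ∧ GoodG k K := by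
  refine ⟨quadN h2 hr hadm.nsq hsgn, hi k K m r h2 hr hadm ?_⟩
  by_contra hno
  exact hform (hs k K m r h2 hr hadm hno)

/-- **RELC**. -/
theorem relc (hk : KccStmt) (hs : StgStmt) (hi : IngStmt) : RelcStmt := by
  intro k _ _ N
  obtain ⟨c, B, hc, hev⟩ := hk k N
  obtain ⟨c', hc', h⟩ := core k c B hc
    (fun m => AdmG k m ∧ Sgn N (mixedEmbedding k (m : k)) ∧ ¬ ∃ g : Q4 (𝓞 k), GIrr g ∧ mm g = m)
    (by
      filter_upwards [hev] with Z hZ
      obtain ⟨S, h1, h2, h3⟩ := hZ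
      refine ⟨S, h1, fun m hm => ?_, h3⟩
      obtain ⟨h4, h5, h6, h7, h8⟩ := h2 m hm
      refine ⟨h4.sqf, ?_, h6, ?_, h4, h5, h8⟩
      · rintro ⟨x, hx⟩
        exact h4.nsq x (by rw [hx, pow_two])
      · intro φ ψ
        have := h7 (InfinitePlace.mk φ) (InfinitePlace.mk ψ)
        rwa [InfinitePlace.apply, InfinitePlace.apply] at this)
    (fun K _ _ _ => QuadN N K ∧ GoodG k K)
    (fun K _ _ _ m r h2 hr hP => good_of hs hi k N K m r h2 hr hP.1 hP.2.1 hP.2.2)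
  refine ⟨c', hc', ?_⟩
  filter_upwards [h] with X hX
  obtain ⟨I, hI, K, hF, hNF, hA, h1, h2, h3⟩ := hX
  exact ⟨I, hI, K, hF, hNF, hA, h1, h2, fun i => ⟨(h3 i).2.2.1.1, (h3 i).2.1, (h3 i).2.2.1.2,
    (h3 i).2.2.2⟩⟩

/-- **HALFC**. -/
theorem halfc (hcnt : CntStmt) (hadc : AdcStmt) (hs : StgStmt) (hi : IngStmt) : HalfcStmt := by
  intro k _ _ N Φ
  obtain ⟨hfin, hlow, hbad⟩ := hcnt k Φ N
  refine ⟨hfin, hlow, fun ε hε => ?_⟩
  filter_upwards [hbad ε hε] with Z h2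
  set bad : Set (𝓞 k) := {m | m ∈ Mset Φ N Z ∧ ((∃ x : k, x ^ 2 = 3 * (m : k)) ∨
        ∃ g : Q4 (𝓞 k), GIrr g ∧ mm g = m)} with hbaddef
  have hsub : bad ⊆ Mset Φ N Z := fun m hm => hm.1
  have hf := hfin Z
  have h4 : ((Mset Φ N Z \ bad).ncard : ℝ) = (Mset Φ N Z).ncard - bad.ncard := by
    have := Set.ncard_sdiff_add_ncard_of_subset hsub hf
    have h4 : (((Mset Φ N Z \ bad).ncard + bad.ncard : ℕ) : ℝ) = (Mset Φ N Z).ncard := by
      rw [this]
    push_cast at h4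
    linarith
  have h5 : (1 - 1 / (2 * 3 ^ un N) - ε) * ((Mset Φ N Z).ncard : ℝ) ≤
      ((Mset Φ N Z \ bad).ncard : ℝ) := by
    rw [h4]
    linarith
  refine h5.trans ?_
  norm_cast
  apply Set.ncard_le_ncard _ (hf.subset fun m hm => hm.1)
  rintro m ⟨hm, hmb⟩
  have hsq : ∀ x : k, x ^ 2 ≠ 3 * (m : k) := fun x hx => hmb ⟨hm, Or.inl ⟨x, hx⟩⟩
  refine ⟨hm, hsq, fun K _ _ _ r h6 h7 => ?_⟩
  have hA : AdmG k m := hadc k m hm.2.2.2.2 hm.2.2.2.1 hsq
  exact good_of hs hi k N K m r h6 h7 hA hm.1 fun h => hmb ⟨hm, Or.inr h⟩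

/-- A set of real places of given size. -/
lemma exists_places (k : Type) [Field k] [NumberField k] (hk : IsTotallyReal k) (t : ℕ)
    (ht : t ≤ finrank ℚ k) : ∃ N : Set {w : InfinitePlace k // IsReal w}, N.ncard = t := by
  have hc : Fintype.card {w : InfinitePlace k // IsReal w} = finrank ℚ k := by
    have h1 := card_add_two_mul_card_eq_rank k
    have h2 : nrComplexPlaces k = 0 := nrComplexPlaces_eq_zero_iff.2 hk
    have h3 : nrRealPlaces k = Fintype.card {w : InfinitePlace k // IsReal w} := rfl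
    omega
  obtain ⟨s, -, hs⟩ := Finset.exists_subset_card_eq
    (s := (Finset.univ : Finset {w : InfinitePlace k // IsReal w})) (n := t)
    (by rw [Finset.card_univ, hc]; exact ht)
  exact ⟨(s : Set _), by rw [Set.ncard_coe_finset, hs]⟩

/-- The signature over a totally real base field. -/
lemma sig_of {k K : Type} [Field k] [NumberField k] [Field K] [NumberField K] [Algebra k K]
    (hk : IsTotallyReal k) {N : Set {w : InfinitePlace k // IsReal w}} (h : QuadN N K) {r₁ r₂ : ℕ}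
    (hN : N.ncard = r₂) (hd : r₁ + 2 * r₂ = 2 * finrank ℚ k) :
    nrRealPlaces K = r₁ ∧ nrComplexPlaces K = r₂ := by
  have h1 := card_add_two_mul_card_eq_rank k
  have h2 : nrComplexPlaces k = 0 := nrComplexPlaces_eq_zero_iff.2 hk
  have h3 := h.real
  have h4 := h.cplx
  constructor <;> omega

/-- **HEADC**. -/
theorem headc (hr : RelcStmt) : HeadcStmt := by
  intro r₁ r₂ he hn
  obtain ⟨t, ht⟩ := he
  haveI : Fact (Nat.Prime 3) := ⟨Nat.prime_three⟩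
  obtain ⟨k, _, _, hdeg, hreal, hleo⟩ := Pool.Agent.LeoG.H59.exists_base 3 (t + r₂) (by omega)
  obtain ⟨N, hN⟩ := exists_places k hreal r₂ (by omega)
  obtain ⟨c, hc, h⟩ := hr k N
  refine ⟨c, hc, ?_⟩
  filter_upwards [h] with X hX
  obtain ⟨I, hI, K, hF, hNF, hA, h1, h2, h3⟩ := hX
  refine ⟨I, hI, K, hF, hNF, h1, h2, fun i => ?_⟩
  obtain ⟨h4, h5, h6, h7⟩ := h3 i
  obtain ⟨h8, h9⟩ := sig_of (r₁ := r₁) hreal h4 hN (by omega)
  exact ⟨h8, h9, h5, h7 (by omega), h6.leo hleo⟩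

/-- Totally real base fields of degree `2 ^ i * 3 ^ a`. -/
lemma exists_base2 (hr : RelcStmt) (a i : ℕ) : ∃ (k : Type) (_ : Field k) (_ : NumberField k),
    finrank ℚ k = 2 ^ i * 3 ^ a ∧ IsTotallyReal k ∧ NoMu k ∧ W3 k := by
  induction i with
  | zero =>
    obtain ⟨F, _, _, hG, hd, hreal, hun⟩ := exists_cyc a
    obtain ⟨hmu, hw⟩ := Pool.Agent.LeoK.H19.gup3 ℚ F a hd hun Pool.Agent.LeoK.H59.nomuq
      Pool.Agent.LeoK.H59.w3q
    exact ⟨F, inferInstance, inferInstance, by rw [hd, pow_zero, one_mul], hreal, hmu, hw⟩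
  | succ i ih =>
    obtain ⟨k, _, _, hdeg, hreal, hmu, hw⟩ := ih
    obtain ⟨N, hN⟩ := exists_places k hreal 0 (by omega)
    obtain ⟨c, hc, h⟩ := hr k N
    obtain ⟨X, hX, hX1⟩ := (h.and (eventually_ge_atTop (1 : ℝ))).exists
    obtain ⟨I, hI, K, hF, hNF, hA, h1, h2, h3⟩ := hX
    have hne : Nonempty I := by
      rw [← Fintype.card_pos_iff]
      have : (0 : ℝ) < Fintype.card I := lt_of_lt_of_le (by positivity) h1
      exact_mod_cast this
    obtain ⟨i₀⟩ := hne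
    obtain ⟨h4, h5, h6, h7⟩ := h3 i₀
    obtain ⟨h8, h9⟩ := sig_of (r₁ := 2 * finrank ℚ k) hreal h4 hN (by omega)
    obtain ⟨h10, h11, -, -⟩ := h6.rat hmu hw
    refine ⟨K i₀, hF i₀, hNF i₀, ?_, nrComplexPlaces_eq_zero_iff.1 h9, h10, h11⟩
    rw [← finrank_mul_finrank ℚ k (K i₀), h4.quad, hdeg, pow_succ]
    ring

/-- **TOWC**. -/
theorem towc (hr : RelcStmt) : TowcStmt := by
  intro j a r₁ r₂ hj hn
  obtain ⟨i, rfl⟩ : ∃ i, j = i + 1 := ⟨j - 1, by omega⟩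
  obtain ⟨k, _, _, hdeg, hreal, hmu, hw⟩ := exists_base2 hr a i
  have hp : r₁ + 2 * r₂ = 2 * finrank ℚ k := by rw [hn, hdeg, pow_succ]; ring
  obtain ⟨N, hN⟩ := exists_places k hreal r₂ (by omega)
  obtain ⟨c, hc, h⟩ := hr k N
  refine ⟨c, hc, ?_⟩
  filter_upwards [h] with X hX
  obtain ⟨I, hI, K, hF, hNF, hA, h1, h2, h3⟩ := hX
  refine ⟨I, hI, K, hF, hNF, h1, h2, fun i₀ => ?_⟩
  obtain ⟨h4, h5, h6, h7⟩ := h3 i₀
  obtain ⟨h8, h9⟩ := sig_of (r₁ := r₁) hreal h4 hN hp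
  obtain ⟨h10, h11, h12, h13⟩ := h6.rat hmu hw
  exact ⟨h8, h9, h5, fun hj2 => h7 (by omega), h10, h11, h12, h13⟩

end Pool.Agent.LeoC.H59
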